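import Pool.Agent.Run7.h366.EucD

/-!
# The removal property in Euclidean space, with Lebesgue measure (MP_f7e9f1_co)

For Lebesgue measurable subsets of `ℝ^d` and the count
`I_P(A) = ∫_{ℝ^d} ∫_{O(d)} ∏_{v ∈ P} 1_A (x + T v) dμ(T) dx`, a nonempty configuration `P` has the
removal property exactly when `d = 1` or `P` is a single point.
-/

theorem Pool.Agent.Results.MP_f7e9f1_co.EuclideanRemoval.result (d : ℕ) (hd : 1 ≤ d)
    (P : Finset (EuclideanSpace ℝ (Fin d))) (hP : P.Nonempty) :
    Run7.h366.Euc.HasRemoval P ↔ (d = 1 ∨ P.card = 1) := by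
  have h : Module.finrank ℝ (EuclideanSpace ℝ (Fin d)) = d := finrank_euclideanSpace_fin
  have := Run7.h366.Euc.main P (by rw [h]; exact hd) hP
  rwa [h] at this
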